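import Pool.Agent.Q97.Linf.Final

set_option autoImplicit false

/-!
# `L_∞(L_r)` is isomorphic to the `ℓ_∞`-sum of the spaces `ℓ_r^n`
-/

namespace Pool.Agent.Results.MP_cd69b0_an.BochnerIso

open MeasureTheory
open scoped ENNReal

variable (𝕜 : Type) [RCLike 𝕜] (r : ℝ≥0∞) [Fact (1 ≤ r)]

/-- Lebesgue measure on the unit interval. -/
noncomputable def leb : Measure ℝ := volume.restrict (Set.Icc (0 : ℝ) 1)

/-- The Banach space `L_r = L_r[0,1]` over the scalar field `𝕜`. -/
def LSpace : Type := Lp 𝕜 r leb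

noncomputable instance LSpace.group : NormedAddCommGroup (LSpace 𝕜 r) :=
  Lp.instNormedAddCommGroup

noncomputable instance LSpace.space : NormedSpace 𝕜 (LSpace 𝕜 r) := Lp.instNormedSpace

/-- The Bochner space `L_∞(L_r)` over the unit interval: classes of strongly measurable
essentially bounded functions on `[0,1]` with values in `L_r`. -/
def LInfL : Type := Lp (LSpace 𝕜 r) ∞ leb

noncomputable instance LInfL.group : NormedAddCommGroup (LInfL 𝕜 r) :=
  Lp.instNormedAddCommGroup

noncomputable instance LInfL.space : NormedSpace 𝕜 (LInfL 𝕜 r) := Lp.instNormedSpace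

/-- The space `ℓ_r^n` of dimension `n`. -/
abbrev FinL (n : ℕ) : Type := PiLp r (fun _ : Fin n => 𝕜)

/-- The space `B_{r,∞}`, the `ℓ_∞`-sum of the spaces `ℓ_r^n`, `n ≥ 1`. -/
def BSpace : Type := lp (fun n : ℕ => FinL 𝕜 r (n + 1)) ∞

noncomputable instance BSpace.group : NormedAddCommGroup (BSpace 𝕜 r) :=
  lp.normedAddCommGroup

noncomputable instance BSpace.space : NormedSpace 𝕜 (BSpace 𝕜 r) :=
  inferInstanceAs (NormedSpace 𝕜 (lp (fun n : ℕ => FinL 𝕜 r (n + 1)) ∞))

/-- For every `r ∈ [1,∞)` and for real or complex scalars there is a continuous linear bijection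
with continuous inverse from `L_∞(L_r)` onto `B_{r,∞}`. -/
theorem result (hr : r ≠ ∞) : Nonempty (LInfL 𝕜 r ≃L[𝕜] BSpace 𝕜 r) :=
  Q97.Dyad.main 𝕜 r hr

end Pool.Agent.Results.MP_cd69b0_an.BochnerIso
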